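import Pool.Agent.Y444.UN.NonOm
import Pool.Agent.Y444.UN.Cdf
import Pool.Agent.Y444.UN.Ind
import Pool.Agent.Y444.UN.Inj
import Pool.Agent.Y584.UN.Codes
import Pool.Agent.Y584.UN.Grz
import Pool.Agent.Y584.UN.Hit
import Pool.Agent.Y406.UN.Rob2
import Pool.Agent.Y475.UN.Nsp
import Pool.Agent.Y409.UN.Bdd

/-!
# `MP_f79ffc_lc`: the additivity of the universally null ideal and the bounding number

If some universally null set has size at least `𝔡`, then `add(UN) ≤ 𝔟`. By Grzegorek's theorem this
is so if `𝔡 ≤ non(N)`. So a model of `add(N) < add(UN)` satisfies `add(N) < 𝔟` or `non(N) < 𝔡`.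

Outline of the proof. The probability space is `Om`, fair coins indexed by `ℕ × ℕ × ℕ`. Let `Z` be
a universally null set of size at least `𝔡` and at least `non(N)` (`Grz`), let `E ⊆ Om` be a set of
size `non(N)` which is not null (`nonOm`), let `D` be a dominating family of size `𝔡`, and let
`(e, d) ↦ z_{e,d}` be an injection of `E × D` into `Z`. For `f` in an unbounded family `B`, `m : ℕ`
and a finite set `F` of coordinates let `X_{f,m,F}` be the set of the points which one gets from
some `e ∈ E` and `d ∈ D` by flipping the coordinates in `F` and then writing `n` zeros and `n`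
digits of `z_{e,d}` into the block `(n, f n, j)`, `j < 2 n`, for all `n ≥ m` with `d n ≤ f n`; here
we require that there are infinitely many such `n` and that only finitely many of the blocks
`(n, f n)` of the flipped point begin with `n` zeros, which is so almost surely (`Nsp`). Now
`z_{e,d}` can be decoded by a Borel function, and so `X_{f,m,F}` is universally null. The union of
these sets is not null: for every closed set `K` of positive measure there is `φ : ℕ → ℕ` such that
the points of a set of positive measure remain in `K` however they are changed in the blocks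
`(n, f n)` with `φ n ≤ f n` (`Rob2`); take `d ∈ D` which dominates `φ`, and `f ∈ B` which is
infinitely often above `d`.
-/

set_option autoImplicit false

open Cardinal

namespace Pool.Agent.Results.MP_f79ffc_lc.BoundingBound

open Pool.Agent.Y444.UN

/-- `add(UN) ≤ 𝔟` if there is a universally null set of size at least `𝔡`, in particular if
`𝔡 ≤ non(N)`. -/
theorem result :
    (∀ Z : Set ℝ, IsUN Z → dNum ≤ #Z → addOf IsUN ≤ bNum) ∧
    (dNum ≤ nonOf IsNull → addOf IsUN ≤ bNum) := by
  have hC : CodesStm := Pool.Agent.Y584.UN.Codes.t
  have hG : GrzStm := Pool.Agent.Y584.UN.Grz.t hC inj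
  have hE : NonEqStm := (addle cdfStm).2
  have hO : NonOmStm := No.nonOm ind cdfStm
  have hB : BddStm := Pool.Agent.Y409.UN.Bdd.t ind inj hG hE hO (Pool.Agent.Y406.UN.Rob2.t ind)
    (Pool.Agent.Y584.UN.Hit.t ind) (Pool.Agent.Y475.UN.t ind)
  refine ⟨hB, fun h => ?_⟩
  obtain ⟨Z, hZ, hZc⟩ := hG
  exact hB Z hZ (by rw [hZc, hE]; exact h)

end Pool.Agent.Results.MP_f79ffc_lc.BoundingBound
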