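import Pool.Agent.Y444.UN.Fin
import Pool.Agent.Y584.UN.Codes
import Pool.Agent.Y584.UN.Grz
import Pool.Agent.Y584.UN.Rob
import Pool.Agent.Y584.UN.Hit
import Pool.Agent.Y584.UN.Dom

/-!
# `MP_f79ffc_lc`: the additivity of the universally null ideal is at most the dominating number

`add(UN) ≤ 𝔡` in ZFC. So in a model of `add(N) < add(UN)` one has `add(N) < 𝔡`.

Outline of the proof. The probability space is `Om`, fair coins indexed by `ℕ × ℕ × ℕ`. By
Grzegorek's theorem (`Grz`) there is a universally null set `Z` whose size is `non(N)`, the size
of a set `E ⊆ Om` which is not null (`nonOm`); let `e ↦ z_e` be an injection of `E` into `Z`. For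
`f : ℕ → ℕ` and a finite set `A` of coordinates let `X_{f,A}` be the set of the points which one
gets from `e ∈ E` by flipping the coordinates in `A` and then writing `z_e (n)` into the place
`(n, f n, 0)` for all `n`. It is universally null, since it is mapped into `Z` by an injective
Borel function. If `f` runs over a dominating family, then the union of these sets is not null: for
every closed set `K` of positive measure there is `φ : ℕ → ℕ` such that for all `f ≥ φ` the points
of a set of positive measure remain in `K` however they are changed at the places `(n, f n, 0)`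
(`Rob`).
-/

set_option autoImplicit false

open Cardinal

namespace Pool.Agent.Results.MP_f79ffc_lc.DominatingBound

open Pool.Agent.Y444.UN

/-- `add(UN) ≤ 𝔡`. -/
theorem result : addOf IsUN ≤ dNum := by
  have hC : CodesStm := Pool.Agent.Y584.UN.Codes.t
  have hG : GrzStm := Pool.Agent.Y584.UN.Grz.t hC inj
  exact Pool.Agent.Y584.UN.Dom.t ind inj hG (addle cdfStm).2 (nonOm ind cdfStm)
    (Pool.Agent.Y584.UN.Rob.t ind) (Pool.Agent.Y584.UN.Hit.t ind)

end Pool.Agent.Results.MP_f79ffc_lc.DominatingBound
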